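import Pool.Agent.Hhelper29.CantorNull

/-!
# Sets all of whose translates are null for the Cantor measure (MP_49e1f6_an)

Negative answer to Q1: there is (in ZFC, with no further hypothesis) a set `X` of reals with positive
outer Lebesgue measure such that every translate `X + t` is null for the Cantor measure.  The proof is
in `Pool/Agent/Hhelper29/CantorNull.lean`; its idea is explained at the top of that file.
-/

open MeasureTheory
open scoped ENNReal

namespace Pool.Agent.Results.MP_49e1f6_an.CantorTranslateNull

/-- **The Cantor measure** on `ℝ`: the image of the product measure `⨂ ½(δ_0 + δ_1)` on `{0,1}^ℕ`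
(here `{false, true}^ℕ`, coordinates indexed by `n = 0, 1, 2, ...`) under the map
`x ↦ ∑ 2 x_n 3^{-(n+1)}`. -/
noncomputable def cantorMeasure : Measure ℝ :=
  (Measure.infinitePi fun _ : ℕ =>
      (2⁻¹ : ℝ≥0∞) • (Measure.dirac false + Measure.dirac true)).map
    (fun x : ℕ → Bool => ∑' n : ℕ, 2 * (if x n then (1 : ℝ) else 0) * (3 : ℝ)⁻¹ ^ (n + 1))

/-- Sanity check: the Cantor measure is a probability measure. -/
lemma cantorMeasure_univ : cantorMeasure Set.univ = 1 :=
  Pool.Agent.Hhelper29.CantorNull.cantorMeasure_univ

/-- Sanity check: the Cantor measure is carried by the middle-thirds Cantor set. -/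
lemma cantorMeasure_compl_cantorSet : cantorMeasure cantorSetᶜ = 0 :=
  Pool.Agent.Hhelper29.CantorNull.cantorMeasure_compl_cantorSet

/-- **Main theorem.** There is a set `X` of reals of positive outer Lebesgue measure such that
`μ_Cantor (X + t) = 0` (outer measure) for every real `t`. -/
theorem result : ∃ X : Set ℝ, 0 < volume X ∧
    ∀ t : ℝ, cantorMeasure ((fun x => x + t) '' X) = 0 :=
  Pool.Agent.Hhelper29.CantorNull.main

end Pool.Agent.Results.MP_49e1f6_an.CantorTranslateNull
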